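import Pool.Agent.H.MP_a1eae6_lc.A

namespace Pool.Agent.Results.MP_a1eae6_lc.Complete

open Pool.Agent.Lib.CX2 Pool.Agent.H.MP_a1eae6_lc

theorem result : Sig2Complete IsoImp := ⟨mem_sig2, hard⟩

end Pool.Agent.Results.MP_a1eae6_lc.Complete
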